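import Pool.Agent.H5.QH.Targets

/-!
# Ternary forms with one exceptional place
-/

set_option autoImplicit false

open NumberField IsDedekindDomain Matrix Pool.Agent.H32.QC Pool.Agent.H34.N6 Pool.Agent.H5.QH

namespace Pool.Agent.H86.QH

theorem iso_sol (hC : T_C3) {F L : Type} [Field F] [Field L] (f : F →+* L) (a : Fin 3 → F)
    (h2 : a 2 ≠ 0) :
    (Iso fun i => f (a i)) ↔ Sol (f (-(a 0 * a 2))) (f (-(a 1 * a 2))) := by
  have e : (fun i => f (a i)) = ![f (a 0), f (a 1), f (a 2)] := by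
    funext i
    fin_cases i <;> rfl
  rw [e, hC L _ _ _ ((map_ne_zero f).2 h2), map_neg, map_neg, map_mul, map_mul]

theorem pf_TR3 (hC : T_C3) (h : T_CON) : T_TR3 := by
  intro K _ _ a w₀ ha hw
  have hK := iso_sol hC (RingHom.id K) a (ha 2)
  simp only [RingHom.id_apply] at hK
  have e0 : Iso a ↔ Sol (-(a 0 * a 2)) (-(a 1 * a 2)) := hK
  rw [e0]
  refine h K _ _ w₀ (neg_ne_zero.2 (mul_ne_zero (ha 0) (ha 2)))
    (neg_ne_zero.2 (mul_ne_zero (ha 1) (ha 2))) fun w hne => ?_
  have hh := hw w hne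
  rcases w with v | τ
  · have h1 : Iso fun i => ic v (a i) := hh
    rw [iso_sol hC (ic v) a (ha 2)] at h1
    change hil _ _ = 1
    unfold hil
    rw [if_pos h1]
  · have h1 : Iso fun i => τ (a i) := hh
    rw [iso_sol hC τ a (ha 2)] at h1
    change hil _ _ = 1
    unfold hil
    rw [if_pos h1]

end Pool.Agent.H86.QH
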