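import Pool.Agent.H5.QH.Targets

/-!
# Isotropic forms are universal
-/

set_option autoImplicit false

open NumberField IsDedekindDomain Matrix Pool.Agent.H32.QC Pool.Agent.H34.N6 Pool.Agent.H5.QH

namespace Pool.Agent.H86.QH

theorem pf_UVI : T_UVI := by
  intro F _ h2 n g hg hI t
  obtain ⟨z, hz, hz0⟩ := hI
  obtain ⟨i0, hi0⟩ : ∃ i, z i ≠ 0 := by
    by_contra hcon
    push Not at hcon
    exact hz (funext hcon)
  have hd : 2 * g i0 * z i0 ≠ 0 := mul_ne_zero (mul_ne_zero h2 (hg i0)) hi0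
  set mu : F := (t - g i0) / (2 * g i0 * z i0) with hmu
  refine ⟨fun i => mu * z i + (if i = i0 then 1 else 0), ?_⟩
  have h1 : ∀ i, g i * (mu * z i + (if i = i0 then 1 else 0)) ^ 2 =
      mu ^ 2 * (g i * z i ^ 2) + (if i = i0 then 2 * mu * (g i * z i) + g i else 0) := by
    intro i
    split_ifs with h
    · ring
    · ring
  simp only [h1]
  rw [Finset.sum_add_distrib, ← Finset.mul_sum, hz0, Finset.sum_ite_eq' Finset.univ i0]
  simp only [Finset.mem_univ, if_true, mul_zero, zero_add]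
  have h3 : mu * (2 * g i0 * z i0) = t - g i0 := by
    rw [hmu, div_mul_cancel₀ _ hd]
  linear_combination h3

end Pool.Agent.H86.QH
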